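import Pool.Agent.Helper90_C4N.RbDef

/-!
Module RB of squad C4N: the relocations of a round.
-/

set_option autoImplicit false

open scoped BigOperators Classical

noncomputable section

namespace Pool.Agent.C4N.H90

open Finset
open Pool.Agent.LAG (near Big)

lemma near_self {V : Type} (G : SimpleGraph V) (r : ℕ) (a : V) : near G r a a :=
  ⟨SimpleGraph.Walk.nil, by simp⟩

lemma near_symm {V : Type} {G : SimpleGraph V} {r : ℕ} {a b : V} (h : near G r a b) :
    near G r b a := by
  obtain ⟨p, hp⟩ := h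
  exact ⟨p.reverse, by rw [SimpleGraph.Walk.length_reverse]; exact hp⟩

lemma near_mono {V : Type} {G : SimpleGraph V} {r r' : ℕ} {a b : V} (hr : r ≤ r')
    (h : near G r a b) : near G r' a b := by
  obtain ⟨p, hp⟩ := h
  exact ⟨p, le_trans hp hr⟩

/-- choice of the candidates -/
lemma exists_cand {V : Type} (t : ℕ) (S : Finset V) (h : t ≤ S.card) :
    ∃ g : Fin t → V, Function.Injective g ∧ ∀ a, g a ∈ S := by
  refine ⟨fun a => (S.equivFin.symm (Fin.castLE h a) : V), ?_, fun a => ?_⟩
  · intro a b hab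
    have h1 := Subtype.ext hab
    have h2 := S.equivFin.symm.injective h1
    exact Fin.castLE_injective h h2
  · exact (S.equivFin.symm (Fin.castLE h a)).2

theorem rb (hLFO : LFOStmt) (hPAL : PALStmt) (hCHN : CHNStmt) (hSEQ : SEQStmt) : RBStmt := by
  intro c2 l ρ hc0 hc1 hl hρ
  obtain ⟨k0, hpal⟩ := hPAL (c2 / 16) (by linarith) (by linarith)
  obtain ⟨K0, hnum⟩ := rb_num c2 l ρ hc0 hc1 hρ k0
  refine ⟨K0, ?_⟩
  intro K k s q t n hK hk hs hq ht hn1 hn2 V _ R T f D bth Z X aY aP H hSep
  obtain ⟨m1, m2, m3, m4, m5, m6, m7, m8, m9, m10⟩ := hnum K k s q t hK hk hs hq ht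
  have hnK : n ≤ K := by omega
  -- the forests
  have hlfo : ∀ i, ∃ F : SimpleGraph V, (∀ x y, F.Adj x y ↔ D i x = some y ∨ D i y = some x) ∧
      LF F ∧ ∀ v, dg F v + (if D i v = none then 1 else 0) +
        (if ∀ x, D i x ≠ some v then 1 else 0) = 2 :=
    fun i => hLFO V (D i) (H.Di i) (fun x y => H.Ds i i x y) (H.Da i)
  choose F0 hF0 hLF hdg using hlfo
  have hF0R : ∀ i, F0 i ≤ R := by
    intro i x y hxy
    rcases (hF0 i x y).1 hxy with h | h
    · exact H.DR i x y h
    · exact (H.DR i y x h).symm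
  set R0 : SimpleGraph V := R \ ⨆ i, F0 i with hR0
  have hR0a : ∀ x y, R0.Adj x y ↔ R.Adj x y ∧ ∀ i, D i x ≠ some y ∧ D i y ≠ some x := by
    intro x y
    rw [hR0, SimpleGraph.sdiff_adj, SimpleGraph.iSup_adj]
    constructor
    · rintro ⟨h1, h2⟩
      exact ⟨h1, fun i => ⟨fun h => h2 ⟨i, (hF0 i x y).2 (Or.inl h)⟩,
        fun h => h2 ⟨i, (hF0 i x y).2 (Or.inr h)⟩⟩⟩
    · rintro ⟨h1, h2⟩
      refine ⟨h1, ?_⟩
      rintro ⟨i, hi⟩
      rcases (hF0 i x y).1 hi with h | h
      · exact (h2 i).1 h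
      · exact (h2 i).2 h
  have hR0T : R0 ≤ T := by
    intro x y hxy
    obtain ⟨h1, h2⟩ := (hR0a x y).1 hxy
    exact H.rT x y h1 h2
  have hDec : Dec R R0 F0 := by
    constructor
    · exact hLF
    · rw [hR0]
      exact sdiff_sup_cancel (iSup_le hF0R)
    · intro i
      rw [SimpleGraph.disjoint_left]
      intro x y hxy hF
      obtain ⟨_, h2⟩ := (hR0a x y).1 hxy
      rcases (hF0 i x y).1 hF with h | h
      · exact (h2 i).1 h
      · exact (h2 i).2 h
    · intro i i' hii
      rw [SimpleGraph.disjoint_left]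
      intro x y h1 h2
      rcases (hF0 i x y).1 h1 with h | h <;> rcases (hF0 i' x y).1 h2 with h' | h'
      · exact hii (H.Dd i i' x y h h')
      · exact H.Ds i i' x y h h'
      · exact H.Ds i i' y x h h'
      · exact hii (H.Dd i i' y x h h')
  -- the palette
  have hYbt : ∀ i v y, y ∈ YY R f D bth i v → ∃ z x, f i y = some z ∧ f i x = some y ∧
      T.Adj y z ∧ T.Adj x y ∧ PP f true i y = z ∧ PP f false i y = x ∧ D i y = some z ∧
      D i x = some y := by
    intro i v y hy
    obtain ⟨h1, h2, h3, h4, h5, h6⟩ := mem_YY.1 hy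
    obtain ⟨z, x, hz, hx, hTz, hTx⟩ := H.bt i y h3
    exact ⟨z, x, hz, hx, hTz, hTx, PP_true hz, PP_false (H.fi i) hx, by rw [h4]; exact hz,
      h5 x hx⟩
  have hPne : ∀ i v y, y ∈ YY R f D bth i v → PP f true i y ≠ PP f false i y := by
    intro i v y hy
    obtain ⟨z, x, hz, hx, hTz, hTx, e1, e2, e3, e4⟩ := hYbt i v y hy
    rw [e1, e2]
    intro hzx
    rw [hzx] at hz
    exact H.fs i i x y hx hz
  have hPadj : ∀ i v y b, y ∈ YY R f D bth i v → R.Adj y (PP f b i y) ∧ T.Adj y (PP f b i y) ∧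
      (F0 i).Adj y (PP f b i y) ∧ PP f b i y ≠ v ∧
      (f i y = some (PP f b i y) ∨ f i (PP f b i y) = some y) := by
    intro i v y b hy
    obtain ⟨z, x, hz, hx, hTz, hTx, e1, e2, e3, e4⟩ := hYbt i v y hy
    obtain ⟨h1, h2, h3, h4, h5, h6⟩ := mem_YY.1 hy
    cases b
    · rw [e2]
      refine ⟨(H.fR i x y hx).symm, hTx.symm, (hF0 i y x).2 (Or.inr e4), ?_, Or.inr hx⟩
      rintro rfl
      exact (h2 i).1 e4
    · rw [e1]
      refine ⟨H.fR i y z hz, hTz, (hF0 i y z).2 (Or.inl e3), ?_, Or.inl hz⟩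
      rintro rfl
      exact (h2 i).2 e3
  obtain ⟨Pal, hPal1, hPal2, hPal3⟩ := hpal k s q n m1 m2 m3 hq (by omega) V R T
    (YY R f D bth) (PP f) H.c4 H.TR
    (fun v => by
      have := (H.dR v).2
      omega)
    H.dT
    (fun i v y hy => ⟨(mem_YY.1 hy).1, hPne i v y hy, fun b =>
      ⟨(hPadj i v y b hy).1, (hPadj i v y b hy).2.2.2.1⟩⟩)
    (fun i v => by
      rw [YY_card]
      exact le_trans m4 (H.cd i v))
  -- the candidates
  have hq0 : 0 < q := by
    rw [hq, Nat.ceil_pos]
    refine Real.rpow_pos_of_pos ?_ _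
    have : 0 < k := by omega
    exact_mod_cast this
  have hcard : ∀ i v, t ≤ ((YY R f D bth i v).filter fun y =>
      PP f true i y ∈ Pal ∧ PP f false i y ∈ Pal).card := by
    intro i v
    have h1 := H.cd i v
    rw [← YY_card] at h1
    have h2 := hPal3 i v
    have h3 : (t : ℝ) * (2 * (q : ℝ) ^ 2) ≤ (((YY R f D bth i v).filter fun y =>
      PP f true i y ∈ Pal ∧ PP f false i y ∈ Pal).card : ℝ) * (2 * (q : ℝ) ^ 2) := by
      calc (t : ℝ) * (2 * (q : ℝ) ^ 2) ≤ 5 * ((s : ℝ) / K) ^ 2 * s := m5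
        _ ≤ ((YY R f D bth i v).card : ℝ) := h1
        _ ≤ ((2 * q ^ 2 * ((YY R f D bth i v).filter fun y =>
          PP f true i y ∈ Pal ∧ PP f false i y ∈ Pal).card : ℕ) : ℝ) := by exact_mod_cast h2
        _ = _ := by
          push_cast
          ring
    have hq0' : (0 : ℝ) < 2 * (q : ℝ) ^ 2 := by
      have : (0 : ℝ) < q := by exact_mod_cast hq0
      positivity
    have h4 := le_of_mul_le_mul_right h3 hq0'
    exact_mod_cast h4
  have hcand := fun i v => exists_cand t _ (hcard i v)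
  choose cand hcinj hcmem using hcand
  have hcY : ∀ i v a, cand i v a ∈ YY R f D bth i v := fun i v a =>
    (Finset.mem_filter.1 (hcmem i v a)).1
  have hcP : ∀ b i v a, PP f b i (cand i v a) ∈ Pal := by
    intro b i v a
    obtain ⟨_, h1, h2⟩ := Finset.mem_filter.1 (hcmem i v a)
    cases b
    · exact h2
    · exact h1
  have hPinj : ∀ b i p, Function.Injective fun a => PP f b i (cand i p a) := by
    intro b i p a a' haa
    apply hcinj i p
    have haa' : PP f b i (cand i p a) = PP f b i (cand i p a') := haa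
    obtain ⟨z, x, hz, hx, _, _, e1, e2, _, _⟩ := hYbt i p _ (hcY i p a)
    obtain ⟨z', x', hz', hx', _, _, e1', e2', _, _⟩ := hYbt i p _ (hcY i p a')
    cases b
    · rw [e2, e2'] at haa'
      rw [haa', hx'] at hx
      exact (Option.some.inj hx).symm
    · rw [e1, e1'] at haa'
      rw [haa'] at hz
      exact H.fi i _ _ _ hz hz'
  set C : Chn V (Fin n) (DDef f D) t l :=
    ⟨cand, PP f, X, fun d => d.1.2.1, fun d => d.1.1⟩ with hC
  set D2 : Set V := {x | dg R x = 2 * K + 2} with hD2
  -- good choices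
  obtain ⟨ω, hω⟩ := hCHN V (Fin n) (DDef f D) t l ρ (2 * K + 2) C R D2 aY aP
    (2 * (k : ℝ) ^ (-0.0004 : ℝ)) (2 * (k : ℝ) ^ (-(c2 / 4 * ((l : ℝ) - 1)))) hl
    (fun v => (H.dR v).2) hcinj hPinj (fun i p a => (mem_YY.1 (hcY i p a)).1)
    (fun b i p a => (hPadj i p _ b (hcY i p a)).1)
    (fun x hx y hy hxy => hSep x y hx hy hxy) H.rc.nn H.rc.r0
    (by
      intro i j y v
      by_cases hb : bth i y
      · refine le_trans (div_le_div_of_nonneg_right ?_ (Nat.cast_nonneg t)) (H.rc.rY i j y v hb)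
        refine Finset.sum_le_sum_of_subset_of_nonneg ?_ (fun u _ _ => (H.rc.nn i j u v).2)
        intro u hu
        obtain ⟨_, h1, a, ha⟩ := Finset.mem_filter.1 hu
        refine Finset.mem_filter.2 ⟨Finset.mem_univ _, h1, ?_⟩
        have h2 := mem_YY.1 (hcY i u a)
        have ha' : cand i u a = y := ha
        rw [ha'] at h2
        exact H.rT u y h2.1 h2.2.1
      · have he : (univ.filter fun u => (j = 0 ∨ u ∈ C.X) ∧ ∃ a, C.cand i u a = y) = ∅ := by
          rw [Finset.filter_eq_empty_iff]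
          rintro u _ ⟨_, a, ha⟩
          have h2 := mem_YY.1 (hcY i u a)
          have ha' : cand i u a = y := ha
          rw [ha'] at h2
          exact hb h2.2.2.1
        rw [he, Finset.sum_empty, zero_div]
        exact (H.rc.nn i j y v).1)
    (by
      intro i j w v
      refine le_trans ?_ (H.rc.rP i j w v)
      rw [Finset.sum_filter, Finset.sum_filter]
      refine Finset.sum_le_sum fun y _ => ?_
      by_cases hb : bth i y
      · obtain ⟨z, x, hz, hx, _, _⟩ := H.bt i y hb
        by_cases hw : ∃ b, C.P b i y = w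
        · rw [if_pos hw, if_pos]
          obtain ⟨b, hb'⟩ := hw
          cases b
          · have h1 : PP f false i y = w := hb'
            rw [PP_false (H.fi i) hx] at h1
            rw [← h1]
            exact Or.inr hx
          · have h1 : PP f true i y = w := hb'
            rw [PP_true hz] at h1
            rw [← h1]
            exact Or.inl hz
        · rw [if_neg hw]
          split_ifs
          · exact (H.rc.nn i j y v).1
          · exact le_rfl
      · rw [H.rc.z i j y v hb]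
        simp)
    (by
      intro w
      have h1 := sum_DDef_le f D (fun i v => ∑ j ∈ range l, (aY i j w v + aP i (j + 1) w v))
        (fun i v => Finset.sum_nonneg fun j _ =>
          add_nonneg (H.rc.nn i j w v).1 (H.rc.nn i (j + 1) w v).2)
      have h2 := H.l1 w
      refine le_trans h1 ?_
      linarith)
    (by
      intro w
      have h1 := sum_DDef_le f D (fun i v => aP i l w v) (fun i v => (H.rc.nn i l w v).2)
      have h2 := H.l2 w
      refine le_trans h1 ?_
      linarith)
    m7 m8 m6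
  -- the relocations
  have hdeg := deg_F0 f D F0 H.dm hdg
  obtain ⟨F, R1, e, hDec1, hR1T, hdg1, he⟩ := hSEQ V (Fin n) (DDef f D) t l ρ C R T R R0 F0 D2 ω
    hl hω hDec (fun i x => by
      have key : ∀ (inst1 inst2 : DecidablePred fun d : DDef f D => d.1.1 = i ∧ d.1.2.1 = x),
          (@Finset.filter _ _ inst1 univ).card = (@Finset.filter _ _ inst2 univ).card := by
        intro inst1 inst2
        rw [Subsingleton.elim inst1 inst2]
      exact le_of_eq_of_le (congrArg (fun z => dg (F0 i) x + z) (key _ _)) ((hdeg x).1 i))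
    (fun i p a => (hR0a _ _).2 ⟨(mem_YY.1 (hcY i p a)).1, (mem_YY.1 (hcY i p a)).2.1⟩)
    (by
      intro i p a d hd
      have h1 := (mem_YY.1 (hcY i p a)).2.2.2.2.2 d.1.1
      have hd' : cand i p a = d.1.2.1 := hd
      rw [hd'] at h1
      exact h1 (los_lse d.2))
    (fun i p a => hPne i p _ (hcY i p a))
    (fun b i p a => ⟨(hPadj i p _ b (hcY i p a)).2.2.1, (hPadj i p _ b (hcY i p a)).2.1⟩) hR0T
  -- degrees
  have hdR : ∀ x, dg R1 x + 2 * n = dg R x + ((univ.filter fun i => f i x = none).card +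
      (univ.filter fun i => ∀ y, f i y ≠ some x).card) +
      (univ.filter fun d => e d = x).card := by
    intro x
    have h1 := dec_dg hDec x
    have h2 := (hdeg x).2
    have h3 := hdg1 x
    have h4 : (univ.filter fun d : DDef f D => C.st d = x) =
      (univ.filter fun d : DDef f D => d.1.2.1 = x) := rfl
    rw [h4] at h3
    omega
  have hends : ∀ x, (univ.filter fun d => e d = x).card ≤ 1 := by
    intro x
    rw [Finset.card_le_one]
    intro d hd d' hd'
    have h1 := (Finset.mem_filter.1 hd).2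
    have h2 := (Finset.mem_filter.1 hd').2
    by_contra hne
    obtain ⟨σ, j, hj, hal, hej, _⟩ := he d
    obtain ⟨σ', j', hj', hal', hej', _⟩ := he d'
    refine (hω.dj d d' σ σ' j j' hne hj hj' hal hal').2.2 ?_
    rw [← hej, ← hej', h1, h2]
  have hbase : ∀ x, x ∉ Z → (univ.filter fun i => f i x = none).card +
      (univ.filter fun i => ∀ y, f i y ≠ some x).card = 0 := by
    intro x hx
    have h1 : (univ.filter fun i => f i x = none) = ∅ := by
      rw [Finset.filter_eq_empty_iff]
      intro i _ hi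
      obtain ⟨⟨y, hy⟩, _⟩ := H.Zd x hx i
      rw [hi] at hy
      exact absurd hy (by simp)
    have h2 : (univ.filter fun i => ∀ y, f i y ≠ some x) = ∅ := by
      rw [Finset.filter_eq_empty_iff]
      intro i _ hi
      obtain ⟨_, ⟨y, hy⟩⟩ := H.Zd x hx i
      exact hi y hy
    rw [h1, h2]
    rfl
  -- ends in `X`
  have hfull : ∀ d, e d ∈ X → ∃ σ, C.al ω d σ l ∧ e d = C.ps ω d σ l := by
    intro d hd
    obtain ⟨σ, j, hj, hal, hej, hor⟩ := he d
    have hjl : j + 1 = l := by
      rcases hor with h | h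
      · exact absurd hd h
      · exact h
    refine ⟨σ, ?_, hej.trans (congrArg (C.ps ω d σ) hjl)⟩
    intro j' hj1 hj2
    by_cases hjj : j' ≤ j
    · exact hal j' hj1 hjj
    · have : j' = j + 1 := by omega
      rw [this, ← hej]
      exact hd
  have hpal' : ∀ d, e d ∈ Pal := by
    intro d
    obtain ⟨σ, j, hj, hal, hej, _⟩ := he d
    rw [hej]
    change C.P (σ j) (C.cl d) (C.yp ω d j (C.ps ω d σ j)) ∈ Pal
    unfold Chn.yp
    rw [dif_pos hj]
    exact hcP _ _ _ _
  have hend2 : ∀ x, (univ.filter fun d => e d = x).card = 1 → x ∈ X →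
      ∃ d σ, C.al ω d σ l ∧ x = C.ps ω d σ l ∧ e d = x := by
    intro x hx hxX
    obtain ⟨d, hd⟩ := Finset.card_pos.1 (by rw [hx]; exact Nat.one_pos)
    have h1 := (Finset.mem_filter.1 hd).2
    obtain ⟨σ, h2, h3⟩ := hfull d (by rw [h1]; exact hxX)
    exact ⟨d, σ, h2, by rw [← h3, h1], h1⟩
  have hnD2 : ∀ x, (univ.filter fun d => e d = x).card = 1 → x ∈ X → x ∉ D2 := by
    intro x hx hxX hx2
    obtain ⟨d, σ, h1, h2, _⟩ := hend2 x hx hxX
    refine hω.e2 d σ h1 x hx2 ?_
    rw [← h2]
    exact near_self R ρ x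
  have hXZ : ∀ x, x ∉ X → x ∉ Z ∧ dg R x = 2 * K := by
    intro x hx
    have h1 := (H.X1 x).not.1 hx
    push Not at h1
    exact h1
  have hlohi : ∀ x, 2 * (K - n) ≤ dg R1 x ∧ dg R1 x ≤ 2 * (K - n) + 2 := by
    intro x
    have h1 := hdR x
    have h2 := H.dR x
    have h3 := hends x
    have h4 := H.one x
    refine ⟨by omega, ?_⟩
    by_cases hZ : x ∈ Z
    · have h5 := H.Ze x hZ
      omega
    · have h6 := hbase x hZ
      by_cases h7 : (univ.filter fun d => e d = x).card = 1
      · by_cases hX : x ∈ X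
        · have h8 := hnD2 x h7 hX
          have h9 : dg R x ≠ 2 * K + 2 := h8
          omega
        · have h8 := (hXZ x hX).2
          omega
      · omega
  have htop : ∀ x, dg R1 x = 2 * (K - n) + 2 → x ∈ D2 ∨
      ∃ d σ, C.al ω d σ l ∧ x = C.ps ω d σ l ∧ e d = x := by
    intro x hx
    by_cases hx2 : x ∈ D2
    · exact Or.inl hx2
    · right
      have hx2' : dg R x ≠ 2 * K + 2 := hx2
      have h1 := hdR x
      have h2 := H.dR x
      have h3 := hends x
      have h4 := H.one x
      have hXx : x ∈ X := by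
        by_contra hX
        have h5 := hXZ x hX
        have h6 := hbase x h5.1
        omega
      have h7 : (univ.filter fun d => e d = x).card = 1 := by
        by_cases hZ : x ∈ Z
        · have h5 := H.Ze x hZ
          omega
        · have h6 := hbase x hZ
          omega
      exact hend2 x h7 hXx
  have hsp : ∀ x, dg R1 x ≠ 2 * (K - n) → x ∈ X ∨ x ∈ Pal := by
    intro x hx
    by_contra hcon
    push Not at hcon
    obtain ⟨hX, hPl⟩ := hcon
    have h5 := hXZ x hX
    have h6 := hbase x h5.1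
    have h1 := hdR x
    have h7 : (univ.filter fun d => e d = x).card = 0 := by
      rw [Finset.card_eq_zero, Finset.filter_eq_empty_iff]
      intro d _ hd
      apply hPl
      rw [← hd]
      exact hpal' d
    omega
  refine ⟨F, R1, hDec1, hR1T, hlohi, ?_, ?_, ?_⟩
  · intro x y hx hy hxy hnear
    rcases htop x hx with hx2 | ⟨d, σ, h1, h2, h3⟩
    · rcases htop y hy with hy2 | ⟨d', σ', h1', h2', h3'⟩
      · exact hSep x y hx2 hy2 hxy (near_mono (by omega) hnear)
      · refine hω.e2 d' σ' h1' x hx2 ?_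
        rw [← h2']
        exact near_symm hnear
    · rcases htop y hy with hy2 | ⟨d', σ', h1', h2', h3'⟩
      · refine hω.e2 d σ h1 y hy2 ?_
        rw [← h2]
        exact hnear
      · by_cases hdd : d = d'
        · apply hxy
          rw [← h3, ← h3', hdd]
        · refine hω.en d d' σ σ' hdd h1 h1' ?_
          rw [← h2, ← h2']
          exact hnear
  · intro v
    have h1 : ({u | R.Adj v u ∧ dg R1 u ≠ 2 * (K - n)}.ncard : ℝ) ≤
        ({u | R.Adj v u ∧ u ∈ X}.ncard : ℝ) + ({u | R.Adj v u ∧ u ∈ Pal}.ncard : ℝ) := by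
      have hsub : {u | R.Adj v u ∧ dg R1 u ≠ 2 * (K - n)} ⊆
          {u | R.Adj v u ∧ u ∈ X} ∪ {u | R.Adj v u ∧ u ∈ Pal} := by
        rintro u ⟨hu1, hu2⟩
        rcases hsp u hu2 with h | h
        · exact Or.inl ⟨hu1, h⟩
        · exact Or.inr ⟨hu1, h⟩
      have h2 := Set.ncard_le_ncard hsub (Set.toFinite _)
      have h3 := Set.ncard_union_le {u | R.Adj v u ∧ u ∈ X} {u | R.Adj v u ∧ u ∈ Pal}
      exact_mod_cast le_trans h2 h3
    have h2 := H.xR v
    have h3 := hPal1 v
    linarith
  · intro v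
    have h1 : ({u | T.Adj v u ∧ dg R1 u ≠ 2 * (K - n)}.ncard : ℝ) ≤
        ({u | T.Adj v u ∧ u ∈ X}.ncard : ℝ) + ({u | T.Adj v u ∧ u ∈ Pal}.ncard : ℝ) := by
      have hsub : {u | T.Adj v u ∧ dg R1 u ≠ 2 * (K - n)} ⊆
          {u | T.Adj v u ∧ u ∈ X} ∪ {u | T.Adj v u ∧ u ∈ Pal} := by
        rintro u ⟨hu1, hu2⟩
        rcases hsp u hu2 with h | h
        · exact Or.inl ⟨hu1, h⟩
        · exact Or.inr ⟨hu1, h⟩
      have h2 := Set.ncard_le_ncard hsub (Set.toFinite _)
      have h3 := Set.ncard_union_le {u | T.Adj v u ∧ u ∈ X} {u | T.Adj v u ∧ u ∈ Pal}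
      exact_mod_cast le_trans h2 h3
    have h2 := H.xT v
    have h3 := hPal2 v
    linarith

end Pool.Agent.C4N.H90
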