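import Pool.Agent.Helper90_C4N.RbNum

/-!
Module RB of squad C4N: the defects.
-/

set_option autoImplicit false

open scoped BigOperators Classical

noncomputable section

namespace Pool.Agent.C4N.H90

open Finset

variable {V : Type} {n : ℕ}

/-- `v` has lost the out-arc (`b = true`), the in-arc (`b = false`) of the class `i` -/
def los (f D : Fin n → V → Option V) (b : Bool) (i : Fin n) (v : V) : Prop :=
  (b = true ∧ (∃ y, f i v = some y) ∧ D i v = none) ∨
    (b = false ∧ (∃ x, f i x = some v) ∧ ∀ x, D i x ≠ some v)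

/-- the defects -/
abbrev DDef (f D : Fin n → V → Option V) : Type :=
  {d : Fin n × V × Bool // los f D d.2.2 d.1 d.2.1}

lemma los_true (f D : Fin n → V → Option V) (i : Fin n) (v : V) :
    los f D true i v ↔ (∃ y, f i v = some y) ∧ D i v = none := by
  unfold los
  constructor
  · rintro (⟨_, h⟩ | ⟨h, _⟩)
    · exact h
    · exact absurd h (by decide)
  · exact fun h => Or.inl ⟨rfl, h⟩

lemma los_false (f D : Fin n → V → Option V) (i : Fin n) (v : V) :
    los f D false i v ↔ (∃ x, f i x = some v) ∧ ∀ x, D i x ≠ some v := by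
  unfold los
  constructor
  · rintro (⟨h, _⟩ | ⟨_, h⟩)
    · exact absurd h (by decide)
    · exact h
  · exact fun h => Or.inr ⟨rfl, h⟩

lemma los_lse {f D : Fin n → V → Option V} {b : Bool} {i : Fin n} {v : V} (h : los f D b i v) :
    lse f D i v := by
  rcases h with ⟨_, h⟩ | ⟨_, h⟩
  · exact Or.inl h
  · exact Or.inr h

lemma sum_DDef [Fintype V] {M : Type} [AddCommMonoid M] (f D : Fin n → V → Option V)
    (G : Fin n → V → M) :
    ∑ d : DDef f D, G d.1.1 d.1.2.1 =
      ∑ i, ∑ v, ((if los f D true i v then G i v else 0) +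
        (if los f D false i v then G i v else 0)) := by
  have h1 : ∑ d : DDef f D, G d.1.1 d.1.2.1 =
      ∑ x : Fin n × V × Bool, if los f D x.2.2 x.1 x.2.1 then G x.1 x.2.1 else 0 := by
    rw [← Finset.sum_filter]
    exact (Finset.sum_subtype (univ.filter fun x : Fin n × V × Bool => los f D x.2.2 x.1 x.2.1)
      (fun x => by simp) (fun x : Fin n × V × Bool => G x.1 x.2.1)).symm
  rw [h1, Fintype.sum_prod_type]
  refine Finset.sum_congr rfl fun i _ => ?_
  rw [Fintype.sum_prod_type]
  refine Finset.sum_congr rfl fun v _ => ?_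
  rw [Fintype.sum_bool]

lemma sum_DDef_le [Fintype V] (f D : Fin n → V → Option V) (G : Fin n → V → ℝ)
    (hG : ∀ i v, 0 ≤ G i v) :
    ∑ d : DDef f D, G d.1.1 d.1.2.1 ≤
      2 * ∑ i, ∑ v, G i v * (if lse f D i v then 1 else 0) := by
  rw [sum_DDef, Finset.mul_sum]
  refine Finset.sum_le_sum fun i _ => ?_
  rw [Finset.mul_sum]
  refine Finset.sum_le_sum fun v _ => ?_
  by_cases h : lse f D i v
  · rw [if_pos h, mul_one]
    have h1 : (if los f D true i v then G i v else 0) ≤ G i v := by
      split_ifs
      · exact le_rfl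
      · exact hG i v
    have h2 : (if los f D false i v then G i v else 0) ≤ G i v := by
      split_ifs
      · exact le_rfl
      · exact hG i v
    linarith
  · rw [if_neg h, if_neg (fun h' => h (los_lse h')), if_neg (fun h' => h (los_lse h'))]
    simp

/-- the number of the defects of the class `i` at `x` -/
lemma card_DDef [Fintype V] (f D : Fin n → V → Option V) (i : Fin n) (x : V) :
    (univ.filter fun d : DDef f D => d.1.1 = i ∧ d.1.2.1 = x).card =
      (if los f D true i x then 1 else 0) + (if los f D false i x then 1 else 0) := by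
  rw [Finset.card_filter]
  rw [sum_DDef f D (fun i' v' => if i' = i ∧ v' = x then 1 else 0)]
  rw [Finset.sum_eq_single i, Finset.sum_eq_single x]
  · rw [if_pos (show i = i ∧ x = x from ⟨rfl, rfl⟩)]
  · intro v _ hv
    rw [if_neg (show ¬ (i = i ∧ v = x) from fun h => hv h.2)]
    simp
  · intro h
    exact absurd (Finset.mem_univ x) h
  · intro j _ hj
    refine Finset.sum_eq_zero fun v _ => ?_
    rw [if_neg (show ¬ (j = i ∧ v = x) from fun h => hj h.1)]
    simp
  · intro h
    exact absurd (Finset.mem_univ i) h

/-- the number of the defects at `x` -/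
lemma card_DDef' [Fintype V] (f D : Fin n → V → Option V) (x : V) :
    (univ.filter fun d : DDef f D => d.1.2.1 = x).card =
      ∑ i, ((if los f D true i x then 1 else 0) + (if los f D false i x then 1 else 0)) := by
  have h : (univ.filter fun d : DDef f D => d.1.2.1 = x).card =
      ∑ i, (univ.filter fun d : DDef f D => d.1.1 = i ∧ d.1.2.1 = x).card := by
    rw [Finset.card_eq_sum_card_fiberwise (f := fun d : DDef f D => d.1.1) (t := univ)
      (fun _ _ => Finset.mem_coe.2 (Finset.mem_univ _))]
    refine Finset.sum_congr rfl fun i _ => ?_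
    rw [Finset.filter_filter]
    refine congrArg Finset.card (Finset.filter_congr fun d _ => ?_)
    exact and_comm
  rw [h]
  exact Finset.sum_congr rfl fun i _ => card_DDef f D i x

/-- neighbours in the class `i` -/
def PP (f : Fin n → V → Option V) (b : Bool) (i : Fin n) (y : V) : V :=
  match b with
  | true => (f i y).getD y
  | false => if h : ∃ x, f i x = some y then h.choose else y

lemma PP_true {f : Fin n → V → Option V} {i : Fin n} {y z : V} (h : f i y = some z) :
    PP f true i y = z := by
  change (f i y).getD y = z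
  rw [h]
  rfl

lemma PP_false {f : Fin n → V → Option V} {i : Fin n} {x y : V} (hi : C4K.PInj (f i))
    (h : f i x = some y) : PP f false i y = x := by
  change (if h : ∃ x, f i x = some y then h.choose else y) = x
  have hex : ∃ x, f i x = some y := ⟨x, h⟩
  rw [dif_pos hex]
  exact hi _ _ _ hex.choose_spec h

/-- candidates for the class `i` at `v` -/
def YY [Fintype V] (R : SimpleGraph V) (f D : Fin n → V → Option V) (bth : Fin n → V → Prop)
    (i : Fin n) (v : V) : Finset V :=
  univ.filter fun y => R.Adj v y ∧ (∀ c, D c v ≠ some y ∧ D c y ≠ some v) ∧ bth i y ∧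
    D i y = f i y ∧ (∀ x, f i x = some y → D i x = some y) ∧ ∀ c, ¬ lse f D c y

lemma YY_card [Fintype V] (R : SimpleGraph V) (f D : Fin n → V → Option V)
    (bth : Fin n → V → Prop) (i : Fin n) (v : V) :
    (YY R f D bth i v).card = ({y | R.Adj v y ∧
    (∀ c, D c v ≠ some y ∧ D c y ≠ some v) ∧ bth i y ∧ D i y = f i y ∧
    (∀ x, f i x = some y → D i x = some y) ∧ ∀ c, ¬ lse f D c y}.ncard) := by
  rw [← Set.ncard_coe_finset]
  refine congrArg Set.ncard ?_
  ext y
  unfold YY
  simp

lemma mem_YY [Fintype V] {R : SimpleGraph V} {f D : Fin n → V → Option V}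
    {bth : Fin n → V → Prop} {i : Fin n} {v y : V} : y ∈ YY R f D bth i v ↔
    R.Adj v y ∧ (∀ c, D c v ≠ some y ∧ D c y ≠ some v) ∧ bth i y ∧
    D i y = f i y ∧ (∀ x, f i x = some y → D i x = some y) ∧ ∀ c, ¬ lse f D c y := by
  unfold YY
  simp

/-- the degrees after the walks -/
lemma deg_F0 [Fintype V] (f D : Fin n → V → Option V) (F0 : Fin n → SimpleGraph V)
    (hdm : ∀ i x y, D i x = some y → (∃ y', f i x = some y') ∧ ∃ x', f i x' = some y)
    (hdg : ∀ i v, dg (F0 i) v + (if D i v = none then 1 else 0) +
      (if ∀ x, D i x ≠ some v then 1 else 0) = 2) (x : V) :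
    (∀ i, dg (F0 i) x + (univ.filter fun d : DDef f D => d.1.1 = i ∧ d.1.2.1 = x).card ≤ 2) ∧
    (∑ i, dg (F0 i) x) + ((univ.filter fun i => f i x = none).card +
      (univ.filter fun i => ∀ y, f i y ≠ some x).card) +
      (univ.filter fun d : DDef f D => d.1.2.1 = x).card = 2 * n := by
  have h1 : ∀ i, (if D i x = none then 1 else 0) = (if f i x = none then 1 else 0) +
      (if los f D true i x then 1 else 0) := by
    intro i
    by_cases hD : D i x = none
    · by_cases hf : f i x = none
      · rw [if_pos hD, if_pos hf, if_neg]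
        rw [los_true]
        rintro ⟨⟨y, hy⟩, _⟩
        rw [hf] at hy
        exact absurd hy (by simp)
      · rw [if_pos hD, if_neg hf, if_pos]
        rw [los_true]
        exact ⟨Option.ne_none_iff_exists'.1 hf, hD⟩
    · obtain ⟨y, hy⟩ := Option.ne_none_iff_exists'.1 hD
      obtain ⟨⟨y', hy'⟩, _⟩ := hdm i x y hy
      rw [if_neg hD, if_neg (by rw [hy']; simp), if_neg]
      rw [los_true]
      rintro ⟨_, h⟩
      exact hD h
  have h2 : ∀ i, (if ∀ y, D i y ≠ some x then 1 else 0) =
      (if ∀ y, f i y ≠ some x then 1 else 0) + (if los f D false i x then 1 else 0) := by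
    intro i
    by_cases hD : ∀ y, D i y ≠ some x
    · by_cases hf : ∀ y, f i y ≠ some x
      · rw [if_pos hD, if_pos hf, if_neg]
        rw [los_false]
        rintro ⟨⟨y, hy⟩, _⟩
        exact hf y hy
      · rw [if_pos hD, if_neg hf, if_pos]
        rw [los_false]
        push Not at hf
        exact ⟨hf, hD⟩
    · have hD' := hD
      push Not at hD'
      obtain ⟨y, hy⟩ := hD'
      obtain ⟨_, ⟨y', hy'⟩⟩ := hdm i y x hy
      rw [if_neg hD, if_neg (fun h => h y' hy'), if_neg]
      rw [los_false]
      rintro ⟨_, h⟩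
      exact hD h
  constructor
  · intro i
    rw [card_DDef]
    have := hdg i x
    rw [h1 i, h2 i] at this
    omega
  · rw [card_DDef', Finset.card_filter, Finset.card_filter, ← Finset.sum_add_distrib,
      ← Finset.sum_add_distrib, ← Finset.sum_add_distrib]
    have h3 : ∀ i ∈ (univ : Finset (Fin n)), dg (F0 i) x + ((if f i x = none then 1 else 0) +
        (if ∀ y, f i y ≠ some x then 1 else 0)) + ((if los f D true i x then 1 else 0) +
        (if los f D false i x then 1 else 0)) = 2 := by
      intro i _
      have := hdg i x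
      rw [h1 i, h2 i] at this
      omega
    rw [Finset.sum_congr rfl h3, Finset.sum_const, Finset.card_univ, Fintype.card_fin,
      smul_eq_mul, mul_comm]

end Pool.Agent.C4N.H90
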