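import Pool.Agent.C4N.Stm2

/-!
Module RB of squad C4N: numerical part and degrees.
-/

set_option autoImplicit false

open scoped BigOperators Classical

noncomputable section

namespace Pool.Agent.C4N.H90

open Finset

/-- the numerical conditions -/
lemma rb_num (c2 : ℝ) (l ρ : ℕ) (h0 : 0 < c2) (h1 : c2 ≤ 1 / 1000)
    (hρ : (ρ : ℝ) + 1 ≤ c2 / 4 * ((l : ℝ) - 1)) (k0 : ℕ) :
    ∃ K0 : ℕ, ∀ K k s q t : ℕ, K0 ≤ K → k = K + 2 → s = ss k → q = ⌈(k : ℝ) ^ (c2 / 16)⌉₊ →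
      t = ⌊((s : ℝ) / K) ^ 2 * s / q ^ 2⌋₊ →
      k0 ≤ k ∧ (k : ℝ) ^ (0.99 : ℝ) ≤ s ∧ s ≤ k ∧
      (k : ℝ) ^ (0.99 : ℝ) ≤ 5 * ((s : ℝ) / K) ^ 2 * s ∧
      (t : ℝ) * (2 * (q : ℝ) ^ 2) ≤ 5 * ((s : ℝ) / K) ^ 2 * s ∧
      l ^ 2 * 2 ^ (l + 10) ≤ t ∧ (2 * (k : ℝ) ^ (-0.0004 : ℝ)) * 2 ^ (l + 10) ≤ 1 ∧
      (2 * (k : ℝ) ^ (-(c2 / 4 * ((l : ℝ) - 1)))) * (((2 * K + 2 : ℕ) : ℝ) + 1) ^ ρ *
        2 ^ (l + 10) ≤ 1 ∧
      (k : ℝ) ^ (1 - c2) + 10 * k / q ≤ (k : ℝ) ^ (1 - c2 / 20) ∧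
      100 * s * (k : ℝ) ^ (-(c2 / 2)) + 300 * s / q ≤ s * (k : ℝ) ^ (-(c2 / 20)) := by
  have e1 := (tendsto_rpow_atTop (show (0 : ℝ) < 0.9 by norm_num)).eventually_ge_atTop
    (4 * ((l : ℝ) ^ 2 * 2 ^ (l + 10)))
  have e2 := (tendsto_rpow_atTop (show (0 : ℝ) < 0.0004 by norm_num)).eventually_ge_atTop
    ((2 : ℝ) * 2 ^ (l + 10))
  have e3 := (Filter.eventually_ge_atTop ((2 : ℝ) ^ (ρ + l + 11)))
  have e4 := (tendsto_rpow_atTop (show (0 : ℝ) < c2 / 80 by linarith)).eventually_ge_atTop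
    (400 : ℝ)
  obtain ⟨B, hB⟩ := Filter.eventually_atTop.1 (e1.and (e2.and (e3.and e4)))
  refine ⟨k0 + ⌈B⌉₊ + 1, ?_⟩
  intro K k s q t hK hk hs hq ht
  have hx1 : (1 : ℝ) ≤ k := by
    have : 1 ≤ k := by omega
    exact_mod_cast this
  have hxB : B ≤ (k : ℝ) := by
    refine le_trans (Nat.le_ceil B) ?_
    have : ⌈B⌉₊ ≤ k := by omega
    exact_mod_cast this
  obtain ⟨f1, f2, f3, f4⟩ := hB k hxB
  have hx0 : (0 : ℝ) < k := by linarith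
  have hK0 : (0 : ℝ) < K := by
    have : 0 < K := by omega
    exact_mod_cast this
  have hKk : (K : ℝ) ≤ k := by
    have : K ≤ k := by omega
    exact_mod_cast this
  have hs1 : (k : ℝ) ^ (1 - 1 / 10000 : ℝ) ≤ s := by
    rw [hs]
    exact Nat.le_ceil _
  have hs2 : s ≤ k := by
    rw [hs]
    unfold ss
    rw [Nat.ceil_le]
    calc (k : ℝ) ^ (1 - 1 / 10000 : ℝ) ≤ (k : ℝ) ^ (1 : ℝ) :=
          Real.rpow_le_rpow_of_exponent_le hx1 (by norm_num)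
      _ = k := Real.rpow_one _
  have hs0 : (0 : ℝ) < s := lt_of_lt_of_le (Real.rpow_pos_of_pos hx0 _) hs1
  have hq1 : (k : ℝ) ^ (c2 / 16) ≤ q := by
    rw [hq]
    exact Nat.le_ceil _
  have hqx1 : (1 : ℝ) ≤ (k : ℝ) ^ (c2 / 16) := Real.one_le_rpow hx1 (by linarith)
  have hq0 : (0 : ℝ) < q := by linarith
  have hq2 : (q : ℝ) ≤ 2 * (k : ℝ) ^ (c2 / 16) := by
    have : (q : ℝ) < (k : ℝ) ^ (c2 / 16) + 1 := by
      rw [hq]
      exact Nat.ceil_lt_add_one (by linarith)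
    linarith
  have hq3 : (q : ℝ) ≤ 2 * (k : ℝ) ^ (0.001 : ℝ) := by
    refine le_trans hq2 ?_
    have := Real.rpow_le_rpow_of_exponent_le hx1 (show c2 / 16 ≤ 0.001 by norm_num; linarith)
    linarith
  have hq4 : (q : ℝ) ^ 2 ≤ 4 * (k : ℝ) ^ (0.002 : ℝ) := by
    have e : (k : ℝ) ^ (0.002 : ℝ) = (k : ℝ) ^ (0.001 : ℝ) * (k : ℝ) ^ (0.001 : ℝ) := by
      rw [← Real.rpow_add hx0]
      norm_num
    rw [e]
    nlinarith
  have hb : (k : ℝ) ^ (-(1 / 10000) : ℝ) ≤ (s : ℝ) / K := by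
    rw [le_div_iff₀ hK0]
    calc (k : ℝ) ^ (-(1 / 10000) : ℝ) * K ≤ (k : ℝ) ^ (-(1 / 10000) : ℝ) * k :=
          mul_le_mul_of_nonneg_left hKk (Real.rpow_nonneg hx0.le _)
      _ = (k : ℝ) ^ (1 - 1 / 10000 : ℝ) := by
          rw [← Real.rpow_add_one hx0.ne']
          norm_num
      _ ≤ s := hs1
  have hbs : (k : ℝ) ^ (0.9997 : ℝ) ≤ ((s : ℝ) / K) ^ 2 * s := by
    have e : (k : ℝ) ^ (0.9997 : ℝ) = ((k : ℝ) ^ (-(1 / 10000) : ℝ)) ^ 2 *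
        (k : ℝ) ^ (1 - 1 / 10000 : ℝ) := by
      rw [← Real.rpow_natCast, ← Real.rpow_mul hx0.le, ← Real.rpow_add hx0]
      norm_num
    rw [e]
    have hp : 0 ≤ (k : ℝ) ^ (-(1 / 10000) : ℝ) := Real.rpow_nonneg hx0.le _
    exact mul_le_mul (pow_le_pow_left₀ hp hb 2) hs1 (Real.rpow_nonneg hx0.le _)
      (by positivity)
  have hbs0 : 0 < ((s : ℝ) / K) ^ 2 * s := by positivity
  have h99 : (k : ℝ) ^ (0.99 : ℝ) ≤ (k : ℝ) ^ (0.9997 : ℝ) :=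
    Real.rpow_le_rpow_of_exponent_le hx1 (by norm_num)
  refine ⟨by omega, ?_, hs2, ?_, ?_, ?_, ?_, ?_, ?_, ?_⟩
  · exact le_trans (Real.rpow_le_rpow_of_exponent_le hx1 (by norm_num)) hs1
  · have : 5 * ((s : ℝ) / K) ^ 2 * s = 5 * (((s : ℝ) / K) ^ 2 * s) := by ring
    rw [this]
    linarith
  · have h2 : (t : ℝ) ≤ ((s : ℝ) / K) ^ 2 * s / q ^ 2 := by
      rw [ht]
      exact Nat.floor_le (by positivity)
    rw [le_div_iff₀ (by positivity)] at h2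
    have : 5 * ((s : ℝ) / K) ^ 2 * s = 5 * (((s : ℝ) / K) ^ 2 * s) := by ring
    rw [this]
    linarith
  · rw [ht]
    apply Nat.le_floor
    rw [le_div_iff₀ (by positivity)]
    push_cast
    calc (l : ℝ) ^ 2 * 2 ^ (l + 10) * (q : ℝ) ^ 2
        ≤ (l : ℝ) ^ 2 * 2 ^ (l + 10) * (4 * (k : ℝ) ^ (0.002 : ℝ)) :=
          mul_le_mul_of_nonneg_left hq4 (by positivity)
      _ = (4 * ((l : ℝ) ^ 2 * 2 ^ (l + 10))) * (k : ℝ) ^ (0.002 : ℝ) := by ring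
      _ ≤ (k : ℝ) ^ (0.9 : ℝ) * (k : ℝ) ^ (0.002 : ℝ) :=
          mul_le_mul_of_nonneg_right f1 (Real.rpow_nonneg hx0.le _)
      _ = (k : ℝ) ^ (0.902 : ℝ) := by
          rw [← Real.rpow_add hx0]
          norm_num
      _ ≤ (k : ℝ) ^ (0.9997 : ℝ) := Real.rpow_le_rpow_of_exponent_le hx1 (by norm_num)
      _ ≤ _ := hbs
  · have e : (k : ℝ) ^ (-0.0004 : ℝ) = ((k : ℝ) ^ (0.0004 : ℝ))⁻¹ := Real.rpow_neg hx0.le _
    rw [e]
    have hp : 0 < (k : ℝ) ^ (0.0004 : ℝ) := Real.rpow_pos_of_pos hx0 _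
    calc 2 * ((k : ℝ) ^ (0.0004 : ℝ))⁻¹ * 2 ^ (l + 10)
        = (2 * 2 ^ (l + 10)) / (k : ℝ) ^ (0.0004 : ℝ) := by
          rw [div_eq_mul_inv]
          ring
      _ ≤ 1 := by
          rw [div_le_one hp]
          exact f2
  · have g1 : (k : ℝ) ^ (-(c2 / 4 * ((l : ℝ) - 1))) ≤ (k : ℝ) ^ (-((ρ : ℝ) + 1)) :=
      Real.rpow_le_rpow_of_exponent_le hx1 (by linarith)
    have g2 : (((2 * K + 2 : ℕ) : ℝ) + 1) ^ ρ ≤ (2 * (k : ℝ)) ^ ρ := by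
      refine pow_le_pow_left₀ (by positivity) ?_ ρ
      rw [hk]
      push_cast
      linarith
    have g3 : (k : ℝ) ^ (-((ρ : ℝ) + 1)) = ((k : ℝ) ^ ρ * k)⁻¹ := by
      rw [Real.rpow_neg hx0.le, Real.rpow_add_one hx0.ne', Real.rpow_natCast]
    have hkr : (0 : ℝ) < (k : ℝ) ^ ρ := by positivity
    calc 2 * (k : ℝ) ^ (-(c2 / 4 * ((l : ℝ) - 1))) * (((2 * K + 2 : ℕ) : ℝ) + 1) ^ ρ *
          2 ^ (l + 10)
        ≤ 2 * (k : ℝ) ^ (-((ρ : ℝ) + 1)) * (2 * (k : ℝ)) ^ ρ * 2 ^ (l + 10) := by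
          refine mul_le_mul_of_nonneg_right ?_ (by positivity)
          exact mul_le_mul (by linarith) g2 (by positivity)
            (mul_nonneg (by norm_num) (Real.rpow_nonneg hx0.le _))
      _ = 2 ^ (ρ + l + 11) / k := by
          rw [g3, mul_pow]
          field_simp
          ring
      _ ≤ 1 := by
          rw [div_le_one hx0]
          exact f3
  · have g1 : 10 * (k : ℝ) / q ≤ 10 * (k : ℝ) ^ (1 - c2 / 16) := by
      rw [div_le_iff₀ hq0]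
      have e : (k : ℝ) = (k : ℝ) ^ (1 - c2 / 16) * (k : ℝ) ^ (c2 / 16) := by
        rw [← Real.rpow_add hx0]
        norm_num
      calc 10 * (k : ℝ) = 10 * ((k : ℝ) ^ (1 - c2 / 16) * (k : ℝ) ^ (c2 / 16)) := by rw [← e]
        _ = 10 * (k : ℝ) ^ (1 - c2 / 16) * (k : ℝ) ^ (c2 / 16) := by ring
        _ ≤ 10 * (k : ℝ) ^ (1 - c2 / 16) * q :=
            mul_le_mul_of_nonneg_left hq1
              (mul_nonneg (by norm_num) (Real.rpow_nonneg hx0.le _))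
    have g2 : (k : ℝ) ^ (1 - c2) ≤ (k : ℝ) ^ (1 - c2 / 16) :=
      Real.rpow_le_rpow_of_exponent_le hx1 (by linarith)
    have g3 : (k : ℝ) ^ (1 - c2 / 20) = (k : ℝ) ^ (1 - c2 / 16) * (k : ℝ) ^ (c2 / 80) := by
      rw [← Real.rpow_add hx0]
      ring_nf
    have g4 : 0 < (k : ℝ) ^ (1 - c2 / 16) := Real.rpow_pos_of_pos hx0 _
    rw [g3]
    nlinarith
  · have g1 : 300 * (s : ℝ) / q ≤ 300 * s * (k : ℝ) ^ (-(c2 / 16)) := by
      rw [Real.rpow_neg hx0.le, div_eq_mul_inv]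
      refine mul_le_mul_of_nonneg_left ?_ (by positivity)
      exact inv_anti₀ (by linarith) hq1
    have g2 : (k : ℝ) ^ (-(c2 / 2)) ≤ (k : ℝ) ^ (-(c2 / 16)) :=
      Real.rpow_le_rpow_of_exponent_le hx1 (by linarith)
    have g3 : (k : ℝ) ^ (-(c2 / 20)) = (k : ℝ) ^ (-(c2 / 16)) * (k : ℝ) ^ (c2 / 80) := by
      rw [← Real.rpow_add hx0]
      ring_nf
    have g4 : 0 < (k : ℝ) ^ (-(c2 / 16)) := Real.rpow_pos_of_pos hx0 _
    rw [g3]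
    calc 100 * (s : ℝ) * (k : ℝ) ^ (-(c2 / 2)) + 300 * s / q
        ≤ 100 * (s : ℝ) * (k : ℝ) ^ (-(c2 / 16)) + 300 * s * (k : ℝ) ^ (-(c2 / 16)) :=
          add_le_add (mul_le_mul_of_nonneg_left g2 (by positivity)) g1
      _ = (s * (k : ℝ) ^ (-(c2 / 16))) * 400 := by ring
      _ ≤ (s * (k : ℝ) ^ (-(c2 / 16))) * (k : ℝ) ^ (c2 / 80) :=
          mul_le_mul_of_nonneg_left f4 (by positivity)
      _ = s * ((k : ℝ) ^ (-(c2 / 16)) * (k : ℝ) ^ (c2 / 80)) := by ring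

lemma dg_eq {V : Type} [Fintype V] (G : SimpleGraph V) (v : V) :
    dg G v = (univ.filter fun u => G.Adj v u).card := by
  unfold dg
  rw [← Set.ncard_coe_finset]
  congr 1
  ext u
  simp

/-- degrees in a decomposition -/
lemma dec_dg {V : Type} [Fintype V] {n : ℕ} {R R' : SimpleGraph V} {F : Fin n → SimpleGraph V}
    (h : Dec R R' F) (v : V) : dg R v = dg R' v + ∑ i, dg (F i) v := by
  simp only [dg_eq, Finset.card_filter]
  rw [Finset.sum_comm, ← Finset.sum_add_distrib]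
  refine Finset.sum_congr rfl fun u _ => ?_
  have hR : R.Adj v u ↔ R'.Adj v u ∨ ∃ i, (F i).Adj v u := by
    rw [← h.un, SimpleGraph.sup_adj, SimpleGraph.iSup_adj]
  by_cases h1 : R'.Adj v u
  · have h2 : ∀ i, ¬ (F i).Adj v u := by
      intro i hi
      have := (SimpleGraph.disjoint_left.1 (h.d1 i)) v u h1
      exact this hi
    have h3 : (∑ i, if (F i).Adj v u then 1 else 0) = 0 :=
      Finset.sum_eq_zero fun i _ => if_neg (h2 i)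
    rw [if_pos (hR.2 (Or.inl h1)), if_pos h1, h3]
  · by_cases h3 : ∃ i, (F i).Adj v u
    · obtain ⟨i, hi⟩ := h3
      rw [if_pos (hR.2 (Or.inr ⟨i, hi⟩)), if_neg h1, Finset.sum_eq_single i, if_pos hi]
      · intro j _ hj
        have := (SimpleGraph.disjoint_left.1 (h.d2 i j (Ne.symm hj))) v u hi
        rw [if_neg this]
      · intro hh
        exact absurd (Finset.mem_univ i) hh
    · have h4 : (∑ i, if (F i).Adj v u then 1 else 0) = 0 :=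
        Finset.sum_eq_zero fun i _ => if_neg (fun hi => h3 ⟨i, hi⟩)
      rw [if_neg (fun hh => (hR.1 hh).elim h1 h3), if_neg h1, h4]

end Pool.Agent.C4N.H90
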